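import Pool.Agent.X160.Cs

/-!
# MP_625e57_gt: locally shallow convex circle polyhedra

A convex c-polyhedron is given by vectors `n v` (`v : V`) spanning the extreme rays of a pointed
polyhedral cone with nonempty interior in `ℝ^{3,1}` (`IsConvexCPolyhedron`); two vertices are
adjacent if the cone over them is a face (`Adj`).

* Every convex locally shallow c-polyhedron has `Inv(D_v, D_w) > 0` for all pairs, and it is
  globally shallow up to replacing all disks by the complementary disks (all `n v` by `-n v`).
  It is itself globally shallow as soon as its cone contains no past-directed causal vector.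
  Hyperbolicity is not needed.
* The change of orientation cannot be avoided: the complements of six octahedral caps form a
  hyperbolic convex locally shallow c-polyhedron which is not globally shallow.
-/

namespace Pool.Agent.Results.MP_625e57_gt.ShallowDichotomy

open Pool.Agent.X160.Cq Pool.Agent.X160.Cr

/-- Convex locally shallow c-polyhedra are globally shallow, up to (and only up to) the
simultaneous change of all disks into their complements. -/
theorem result :
    (∀ (V : Type) [Fintype V] (n : V → Fin 4 → ℝ), IsConvexCPolyhedron n → LocallyShallow n →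
      (∀ v w, v ≠ w → 0 < inv (n v) (n w)) ∧
      (GloballyShallow n ∨ GloballyShallow (fun v => -n v)) ∧
      ((∀ x ∈ cone n, lor x x ≤ 0 → 0 ≤ x 3) → GloballyShallow n)) ∧
    ∃ n : Fin 6 → Fin 4 → ℝ, IsConvexCPolyhedron n ∧ Hyperbolic n ∧ LocallyShallow n ∧
      ¬ GloballyShallow n :=
  ⟨fun _ _ _ h hl => ⟨inv_pos_all h hl, dichotomy h hl, glob_of_future h hl⟩,
    ⟨Pool.Agent.X160.Cs.oct, Pool.Agent.X160.Cs.poly, Pool.Agent.X160.Cs.hyperbolic,
      Pool.Agent.X160.Cs.locally, Pool.Agent.X160.Cs.not_globally⟩⟩

end Pool.Agent.Results.MP_625e57_gt.ShallowDichotomy
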